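import Pool.Agent.H80.JD.Model
import Pool.Agent.H80.JD.FinC
import Pool.Agent.H33.JD.UB
import Pool.Agent.H33.JD.LIM
import Pool.Agent.H86.JD.CHC
import Pool.Agent.H56.JD.NCC
import Pool.Agent.H18.JD.BF
import Pool.Agent.H56.JD.SP
import Pool.Agent.H20.JD.LV
import Pool.Agent.H59.JD.VV
import Pool.Agent.H3.JD.V1
import Pool.Agent.H5.JD.RC
import Pool.Agent.H5.JD.LC1
import Pool.Agent.H5.JD.LC2
import Pool.Agent.H49.JD.CLT
import Pool.Agent.H87.JD.GT

/-!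
# The largest cluster diameter of binary perceptrons with large margin

There are absolute constants `C`, `κ₀` such that for the symmetric binary perceptron with margin
`κ ≥ κ₀` and for the asymmetric binary perceptron with margin `-κ`, `κ ≥ κ₀`, the largest cluster
diameter is, with high probability, at most `C (log κ / κ²) (1 + 1 / (α p)) n` as soon as
`α p ≥ C (log κ / κ)²`, where `p` is the probability that a standard normal violates a constraint
(`p = P(|N| > κ)`, respectively `p = P(N < -κ)`).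

All definitions are in `Pool.Agent.H80.JD.Model`.
-/

set_option autoImplicit false

namespace Pool.Agent.Results.MP_38f78d_pr.LargeMargin

open Pool.Agent.H80.Perceptron

theorem result :
    ∃ C κ₀ : ℝ, 1 < κ₀ ∧ 0 < C ∧ ∀ κ : ℝ, κ₀ ≤ κ → ∀ p : ℝ,
      (p = (ProbabilityTheory.gaussianReal 0 1).real {t : ℝ | κ < |t|} →
        (∀ α : ℝ, 0 < α → C * (Real.log κ / κ) ^ 2 ≤ α * p →
          DiamLe (SBP κ) α (C * (Real.log κ / κ ^ 2) * (1 + 1 / (α * p)))) ∧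
        ∀ α₀ c δ : ℝ, 0 ≤ c → 0 < δ → 0 < α₀ → C * (Real.log κ / κ) ^ 2 < α₀ * p →
          JumpsAt (SBP κ) α₀ c δ → c + δ ≤ C * (Real.log κ / κ ^ 2) * (1 + 1 / (α₀ * p))) ∧
      (p = (ProbabilityTheory.gaussianReal 0 1).real (Set.Iio (-κ)) →
        (∀ α : ℝ, 0 < α → C * (Real.log κ / κ) ^ 2 ≤ α * p →
          DiamLe (ABP (-κ)) α (C * (Real.log κ / κ ^ 2) * (1 + 1 / (α * p)))) ∧
        ∀ α₀ c δ : ℝ, 0 ≤ c → 0 < δ → 0 < α₀ → C * (Real.log κ / κ) ^ 2 < α₀ * p →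
          JumpsAt (ABP (-κ)) α₀ c δ →
          c + δ ≤ C * (Real.log κ / κ ^ 2) * (1 + 1 / (α₀ * p))) :=
  Pool.Agent.H80.JD.finC Pool.Agent.H33.JD.ub Pool.Agent.H33.JD.lim Pool.Agent.H86.JD.chc
    Pool.Agent.H56.JD.ncc
    (Pool.Agent.H5.JD.rc Pool.Agent.H18.JD.BF.bf
      (Pool.Agent.H59.JD.vv Pool.Agent.H56.JD.sp Pool.Agent.H20.JD.lv) Pool.Agent.H3.JD.v1
      Pool.Agent.H56.JD.ncc)
    (Pool.Agent.H5.JD.lc1 Pool.Agent.H49.JD.clt Pool.Agent.H87.JD.gt) Pool.Agent.H5.JD.lc2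
    Pool.Agent.H49.JD.clt Pool.Agent.H87.JD.gt

end Pool.Agent.Results.MP_38f78d_pr.LargeMargin
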