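import Pool.Agent.H80.JD.Model
import Pool.Agent.H80.JE.FIN
import Pool.Agent.H33.JD.SMG
import Pool.Agent.H33.JD.KH
import Pool.Agent.H92.JD.EXS
import Pool.Agent.H33.JD.FS
import Pool.Agent.H18.JD.GL
import Pool.Agent.H49.JD.CLT
import Pool.Agent.H74.JE.ABS
import Pool.Agent.H86.JE.ASY
import Pool.Agent.H78.JE.CU1
import Pool.Agent.H52.JE.CU2E
import Pool.Agent.H64.JE.CU3
import Pool.Agent.H86.JE.DU
import Pool.Agent.H26.JE.EV1
import Pool.Agent.H94.JE.EV2
import Pool.Agent.H38.JE.EV3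
import Pool.Agent.H39.JE.EXM
import Pool.Agent.H13.JE.EXR
import Pool.Agent.H36.JE.FSS
import Pool.Agent.H29.JE.LLN
import Pool.Agent.H52.JE.ONE2
import Pool.Agent.H46.JE.PTH3
import Pool.Agent.H54.JE.PTH4
import Pool.Agent.H68.JE.SYM
import Pool.Agent.H41.JE.V2

/-!
# The largest cluster diameter of the asymmetric binary perceptron with large positive margin

Let `d c = P(|N| ≤ √(log (2 / (π c))))` for `0 < c < 2 / π` and `d c = 0` for `c ≥ 2 / π`
(continuous and decreasing from `1` to `0`; in Lean the square root and hence `d` are `0` where the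
logarithm is negative). For the asymmetric binary perceptron with any margin `κ > 0`, with high
probability: there are no solutions if `α κ² > 2 / π`; any two solutions have distance at most
`(d (α κ²) + ε) n`; some cluster has diameter at least `(d (α κ²) - 100 / √κ) n`. Hence every jump
of the largest cluster diameter has size at most `100 / √κ`.

All definitions are in `Pool.Agent.H80.JD.Model`.
-/

set_option autoImplicit false

namespace Pool.Agent.Results.MP_38f78d_pr.LimitCurve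

open Pool.Agent.H80.Perceptron Filter Topology

theorem result :
    ∀ κ : ℝ, 0 < κ →
      (∀ α : ℝ, 2 / Real.pi < α * κ ^ 2 →
        Tendsto (fun n : ℕ => prob ⌊α * n⌋₊ n (fun G => ∀ x, ¬ ABP κ _ n G x)) atTop (𝓝 1)) ∧
      (∀ α ε : ℝ, 0 < α → 0 < ε →
        Tendsto (fun n : ℕ => prob ⌊α * n⌋₊ n (fun G => ∀ x y, ABP κ _ n G x → ABP κ _ n G y →
          (hammingDist x y : ℝ) ≤
            (P (Real.sqrt (Real.log (2 / (Real.pi * (α * κ ^ 2))))) + ε) * n)) atTop (𝓝 1)) ∧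
      (∀ α : ℝ, 0 < α → DiamGe (ABP κ) α
        (P (Real.sqrt (Real.log (2 / (Real.pi * (α * κ ^ 2))))) - 100 / Real.sqrt κ)) ∧
      ∀ α₀ c δ : ℝ, 0 < α₀ → JumpsAt (ABP κ) α₀ c δ → δ ≤ 100 / Real.sqrt κ :=
  Pool.Agent.H80.JE.finE
    (Pool.Agent.H80.JE.upb
      (Pool.Agent.H26.JE.ev1 Pool.Agent.H49.JD.clt (Pool.Agent.H41.JE.v2 Pool.Agent.H33.JD.KH.kh))
      Pool.Agent.H29.JE.lln (Pool.Agent.H41.JE.v2 Pool.Agent.H33.JD.KH.kh) Pool.Agent.H86.JE.du)
    (Pool.Agent.H80.JE.low Pool.Agent.H33.JD.SMG.smg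
      (Pool.Agent.H52.JE.one2 Pool.Agent.H33.JD.FS.fs Pool.Agent.H36.JE.fss
        Pool.Agent.H74.JE.abs_ (Pool.Agent.H13.JE.exr (Pool.Agent.H92.JD.exs Pool.Agent.H33.JD.KH.kh))
        Pool.Agent.H39.JE.exm Pool.Agent.H68.JE.sym)
      Pool.Agent.H46.JE.pth3 Pool.Agent.H54.JE.pth4
      (Pool.Agent.H94.JE.ev2
        (Pool.Agent.H26.JE.ev1 Pool.Agent.H49.JD.clt
          (Pool.Agent.H41.JE.v2 Pool.Agent.H33.JD.KH.kh))
        (Pool.Agent.H38.JE.ev3 Pool.Agent.H49.JD.clt))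
      (Pool.Agent.H38.JE.ev3 Pool.Agent.H49.JD.clt) Pool.Agent.H29.JE.lln
      Pool.Agent.H86.JE.asy2)
    (Pool.Agent.H78.JE.cu1 Pool.Agent.H18.JD.GL.gl)
    (Pool.Agent.H52.JE.cu2e Pool.Agent.H18.JD.GL.gl)
    (Pool.Agent.H64.JE.cu3 Pool.Agent.H18.JD.GL.gl)

end Pool.Agent.Results.MP_38f78d_pr.LimitCurve
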