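import Pool.Agent.H80.JD.Model
import Pool.Agent.H80.JD.FinB
import Pool.Agent.H33.JD.UB
import Pool.Agent.H33.JD.LIM
import Pool.Agent.H56.JD.SP
import Pool.Agent.H20.JD.PR2
import Pool.Agent.H54.JD.MID
import Pool.Agent.H87.JD.GT
import Pool.Agent.H18.JD.GL
import Pool.Agent.H49.JD.CLT
import Pool.Agent.H86.JD.LB1
import Pool.Agent.H87.JD.LB2
import Pool.Agent.H89.JD.LB3

/-!
# The largest cluster diameter of the symmetric binary perceptron near the threshold

For every margin `κ > 0` the largest cluster diameter is, with high probability, at most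
`C (α_c - α)² n` for all densities `α` slightly below the satisfiability threshold `α_c`; in
particular it tends to zero as the density tends to the threshold, and every jump close to the
threshold is of size at most `C (α_c - α₀)²`.

All definitions are in `Pool.Agent.H80.JD.Model`.
-/

set_option autoImplicit false

namespace Pool.Agent.Results.MP_38f78d_pr.NearThreshold

open Pool.Agent.H80.Perceptron

theorem result :
    ∀ κ : ℝ, 0 < κ → ∃ C α₁ : ℝ, 0 < C ∧ 0 < α₁ ∧ α₁ < αc κ ∧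
      (∀ α : ℝ, α₁ ≤ α → α < αc κ → DiamLe (SBP κ) α (C * (αc κ - α) ^ 2)) ∧
      ∀ α₀ c δ : ℝ, 0 ≤ c → 0 < δ → α₁ < α₀ → α₀ < αc κ → JumpsAt (SBP κ) α₀ c δ →
        c + δ ≤ C * (αc κ - α₀) ^ 2 :=
  Pool.Agent.H80.JD.finB Pool.Agent.H33.JD.ub Pool.Agent.H33.JD.lim
    (Pool.Agent.H20.JD.pr2 Pool.Agent.H56.JD.sp) Pool.Agent.H54.JD.mid Pool.Agent.H87.JD.gt
    (Pool.Agent.H86.JD.lb1 Pool.Agent.H49.JD.clt)
    (Pool.Agent.H87.JD.lb2 Pool.Agent.H18.JD.GL.gl Pool.Agent.H87.JD.gt) Pool.Agent.H89.JD.lb3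

end Pool.Agent.Results.MP_38f78d_pr.NearThreshold
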