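import Pool.Agent.H80.JD.Model
import Pool.Agent.H80.JD.FinA
import Pool.Agent.H80.JD.FinD
import Pool.Agent.H80.JD.PTH1
import Pool.Agent.H33.JD.UB
import Pool.Agent.H33.JD.LIM
import Pool.Agent.H33.JD.CB
import Pool.Agent.H23.JD.WL
import Pool.Agent.H74.JD.EX
import Pool.Agent.H51.JD.CHA
import Pool.Agent.H58.JD.WC
import Pool.Agent.H65.JD.NCA
import Pool.Agent.H20.JD.PA
import Pool.Agent.H58.JD.XU
import Pool.Agent.H58.JD.SW
import Pool.Agent.H65.JD.RR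
import Pool.Agent.H86.JD.RA
import Pool.Agent.H6.JD.RHO
import Pool.Agent.H65.JD.ENA
import Pool.Agent.H33.JD.SMG
import Pool.Agent.H33.JD.KH
import Pool.Agent.H92.JD.EXS
import Pool.Agent.H33.JD.FS
import Pool.Agent.H30.JD.GR
import Pool.Agent.H60.JD.ONE
import Pool.Agent.H85.JD.PTH2
import Pool.Agent.H53.JD.ASY

/-!
# The largest cluster diameter of the symmetric binary perceptron with small margin

For small margins `κ` the largest cluster diameter `D_n(α)` (divided by `n`) of the symmetric binary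
perceptron falls from `1` to `O(1 / log (1 / κ))` in the window `[10⁻⁷ κ², C κ² log (e / κ)]`: with
high probability `D_n(α) = 1` for `α ≤ 10⁻⁷ κ²` and `D_n(α) ≤ C κ² (1 + 1 / α)` for
`α ≥ C κ² log (e / κ)`, with an absolute constant `C`. In particular every jump at a density
`α₀ > C κ² log (e / κ)` has size at most `C κ² (1 + 1 / α₀)`.

All definitions are in `Pool.Agent.H80.JD.Model`.
-/

set_option autoImplicit false

namespace Pool.Agent.Results.MP_38f78d_pr.SmallMargin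

open Pool.Agent.H80.Perceptron Filter Topology

theorem result :
    (∀ κ α : ℝ, 0 < κ → 0 < α → 10 ^ 7 * α ≤ κ ^ 2 →
      Tendsto (fun n : ℕ => prob ⌊α * n⌋₊ n (fun G => maxDiam (SBP κ _ n G) = n)) atTop (𝓝 1)) ∧
    ∃ C : ℝ, 0 < C ∧ ∀ κ : ℝ, 0 < κ → κ ≤ 1 →
      (∀ α : ℝ, C * κ ^ 2 * Real.log (Real.exp 1 / κ) ≤ α →
        DiamLe (SBP κ) α (C * κ ^ 2 * (1 + 1 / α))) ∧
      ∀ α₀ c δ : ℝ, 0 ≤ c → 0 < δ → C * κ ^ 2 * Real.log (Real.exp 1 / κ) < α₀ →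
        JumpsAt (SBP κ) α₀ c δ → c + δ ≤ C * κ ^ 2 * (1 + 1 / α₀) :=
  ⟨Pool.Agent.H80.JD.finD Pool.Agent.H33.JD.SMG.smg
      (Pool.Agent.H60.JD.one Pool.Agent.H33.JD.FS.fs Pool.Agent.H30.JD.gr
        (Pool.Agent.H92.JD.exs Pool.Agent.H33.JD.KH.kh))
      Pool.Agent.H80.JD.pth1 Pool.Agent.H85.JD.pth2 Pool.Agent.H53.JD.asy,
    Pool.Agent.H80.JD.finA Pool.Agent.H33.JD.ub Pool.Agent.H33.JD.lim
      (Pool.Agent.H51.JD.cha (Pool.Agent.H74.JD.ex Pool.Agent.H23.JD.wl))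
      (Pool.Agent.H65.JD.nca Pool.Agent.H58.JD.wc)
      (Pool.Agent.H86.JD.ra (Pool.Agent.H65.JD.rr Pool.Agent.H20.JD.pa Pool.Agent.H58.JD.xu
        (Pool.Agent.H58.JD.sw Pool.Agent.H33.JD.cb)))
      Pool.Agent.H6.JD.rho Pool.Agent.H65.JD.ena⟩

end Pool.Agent.Results.MP_38f78d_pr.SmallMargin
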